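import Pool.Agent.Q37.QI.Dep

/-!
# Bass' formula for the `C`-quasi-injective dimension

For a semidualizing module `C` over a commutative Noetherian local ring `R` and a nonzero finitely
generated module `M` of finite `C`-quasi-injective dimension, this dimension is the depth of `R`.
-/

open CategoryTheory CategoryTheory.Limits CategoryTheory.Abelian Opposite IsLocalRing
open RingTheory.Sequence

namespace Pool.Agent.Results.MP_a1000c_al.QuasiInjDimEqDepth

open Pool.Agent.Q37.PC Pool.Agent.Q37.QI

universe u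

section defs

variable (R : Type u) [CommRing R]

/-- `C` is semidualizing: finitely generated, the homothety map `R → Hom_R(C, C)` is bijective and
`Ext^i_R(C, C) = 0` for all `i > 0`. -/
structure IsSemidualizing (C : Type u) [AddCommGroup C] [Module R C] : Prop where
  finite : Module.Finite R C
  homothety : Function.Bijective (LinearMap.lsmul R C : R →ₗ[R] C →ₗ[R] C)
  ext_vanish : ∀ i : ℕ, 0 < i → Subsingleton (Ext (ModuleCat.of R C) (ModuleCat.of R C) i)

variable {R}

/-- The complex `Hom_R(C, I)`, with `i`-th module `Hom_R(C, I_i)` and differential given by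
composition with the differential of `I`. -/
noncomputable abbrev HomComplex (C : Type u) [AddCommGroup C] [Module R C]
    (I : ChainComplex (ModuleCat.{u} R) ℤ) : ChainComplex (ModuleCat.{u} R) ℤ :=
  (((linearCoyoneda R (ModuleCat.{u} R)).obj (op (ModuleCat.of R C))).mapHomologicalComplex
    (ComplexShape.down ℤ)).obj I

/-- `inf X = inf {i | X_i ≠ 0}`. -/
noncomputable def infDeg (X : ChainComplex (ModuleCat.{u} R) ℤ) : ℤ :=
  sInf {i : ℤ | ¬ IsZero (X.X i)}

/-- `hinf X = inf {i | H_i(X) ≠ 0}`. -/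
noncomputable def hinfDeg (X : ChainComplex (ModuleCat.{u} R) ℤ) : ℤ :=
  sInf {i : ℤ | ¬ IsZero (X.homology i)}

/-- `I` is a `C`-quasi-injective resolution of `M`: a bounded complex of injective modules such
that `Hom_R(C, I)` is not acyclic and each `H_i(Hom_R(C, I))` is a finite direct sum of copies
of `M`. -/
structure IsQuasiInjRes (C : Type u) [AddCommGroup C] [Module R C]
    (M : Type u) [AddCommGroup M] [Module R M] (I : ChainComplex (ModuleCat.{u} R) ℤ) : Prop where
  bounded : {i : ℤ | ¬ IsZero (I.X i)}.Finite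
  injective : ∀ i, Injective (I.X i)
  not_acyclic : ¬ ∀ i, IsZero ((HomComplex C I).homology i)
  homology : ∀ i, ∃ a : ℕ, Nonempty ((HomComplex C I).homology i ≅ ModuleCat.of R (Fin a → M))

variable (R) in
/-- The `C`-quasi-injective dimension: the infimum of
`hinf Hom_R(C, I) - inf Hom_R(C, I)` over all `C`-quasi-injective resolutions `I` of `M`
(`⊤` if there is none). -/
noncomputable def qid (C : Type u) [AddCommGroup C] [Module R C]
    (M : Type u) [AddCommGroup M] [Module R M] : ℕ∞ :=
  ⨅ (I : ChainComplex (ModuleCat.{u} R) ℤ) (_ : IsQuasiInjRes C M I),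
    ((hinfDeg (HomComplex C I) - infDeg (HomComplex C I)).toNat : ℕ∞)

variable (R) in
/-- The depth of the local ring `R`: the supremum of the lengths of `R`-regular sequences. -/
noncomputable def depth : ℕ∞ := ⨆ (xs : List R) (_ : IsRegular R xs), (xs.length : ℕ∞)

end defs

section proofs

variable {R : Type u} [CommRing R] {C : Type u} [AddCommGroup C] [Module R C]
  {M : Type u} [AddCommGroup M] [Module R M] {I : ChainComplex (ModuleCat.{u} R) ℤ}

lemma IsSemidualizing.ann (h : IsSemidualizing R C) : Module.annihilator R C = ⊥ := by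
  rw [eq_bot_iff]
  intro r hr
  rw [Module.mem_annihilator] at hr
  rw [Ideal.mem_bot]
  apply h.homothety.1
  refine LinearMap.ext fun c => ?_
  rw [map_zero]
  exact hr c

lemma IsSemidualizing.ev (h : IsSemidualizing R C) (j : ℕ) : EV R (j + 1) C C :=
  h.ext_vanish (j + 1) (Nat.succ_pos j)

lemma IsQuasiInjRes.below (h : IsQuasiInjRes C M I) : ∃ a : ℤ, ∀ i < a, IsZero (I.X i) := by
  obtain ⟨a, ha⟩ := h.bounded.bddBelow
  refine ⟨a, fun i hi => ?_⟩
  by_contra h2
  exact absurd (ha h2) (not_le.2 hi)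

lemma IsQuasiInjRes.above (h : IsQuasiInjRes C M I) : ∃ a : ℤ, ∀ i > a, IsZero (I.X i) := by
  obtain ⟨a, ha⟩ := h.bounded.bddAbove
  refine ⟨a, fun i hi => ?_⟩
  by_contra h2
  exact absurd (ha h2) (not_le.2 hi)

lemma nonzero_X {i : ℤ} (h : ¬ IsZero (hh I C i)) : ¬ IsZero (I.X i) := by
  intro h2
  exact h ((ModuleCat.isZero_iff_subsingleton).2 (hh_zero I h2))

lemma IsQuasiInjRes.hinf_mem (h : IsQuasiInjRes C M I) :
    ¬ IsZero (hh I C (hinfDeg (HomComplex C I))) := by
  have h1 : {i : ℤ | ¬ IsZero ((HomComplex C I).homology i)}.Nonempty := by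
    obtain ⟨i, hi⟩ := not_forall.1 h.not_acyclic
    exact ⟨i, hi⟩
  have h2 : BddBelow {i : ℤ | ¬ IsZero ((HomComplex C I).homology i)} :=
    h.bounded.bddBelow.mono fun i hi => nonzero_X hi
  exact Int.csInf_mem h1 h2

lemma IsQuasiInjRes.hinf_lt (h : IsQuasiInjRes C M I) {i : ℤ}
    (hi : i < hinfDeg (HomComplex C I)) : IsZero (hh I C i) := by
  have h2 : BddBelow {i : ℤ | ¬ IsZero ((HomComplex C I).homology i)} :=
    h.bounded.bddBelow.mono fun i hi => nonzero_X hi
  by_contra h3
  exact absurd (csInf_le h2 h3) (not_le.2 hi)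

/-- All the modules `H_i(Hom_R(N, I))` are finitely generated. -/
lemma IsQuasiInjRes.noeth [IsNoetherianRing R] [Module.Finite R M] (hC : IsSemidualizing R C)
    (h : IsQuasiInjRes C M I) (N : Type u) [AddCommGroup N] [Module R N] [Module.Finite R N]
    (i : ℤ) : IsNoetherian R (hh I N i) := by
  have hI := h.injective
  have := hC.finite
  obtain ⟨a, ha⟩ := h.below
  obtain ⟨s, hs⟩ := h.above
  have h1 : ∀ i, IsNoetherian R (hh I C i) := by
    intro i
    obtain ⟨n, ⟨e⟩⟩ := h.homology i
    exact isNoetherian_of_linearEquiv e.toLinearEquiv.symm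
  have h2 : ∀ i, IsNoetherian R (hh I R i) := by
    intro i
    refine noeth_equiv I (LinearEquiv.ofBijective _ hC.homothety) i ?_
    exact noeth_hom I C h1 a ha (i - a + 1).toNat i (by omega) C hC.ev
  exact noeth_all I h2 s hs (s - i + 1).toNat i (by omega) N

/-- `N` is killed by nothing: a nonzero injective module has nonzero maps from `C`. -/
lemma nonzero_hom (hC : IsSemidualizing R C) {i : ℤ} (hI : Injective (I.X i))
    (h : ¬ IsZero (I.X i)) : ¬ IsZero ((HomComplex C I).X i) := by
  have := hC.finite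
  intro h0
  apply h
  have h0' : ∀ φ : C →ₗ[R] I.X i, φ = 0 := by
    intro φ
    have := (ModuleCat.isZero_iff_subsingleton.1 h0).elim (ModuleCat.ofHom φ : ModuleCat.of R C ⟶ _)
      (0 : ModuleCat.of R C ⟶ I.X i)
    exact congrArg ModuleCat.Hom.hom this
  obtain ⟨n, q, hq⟩ := Module.Finite.exists_fin' R C
  -- the embedding of `R` in `C^n`
  let F : R →ₗ[R] (Fin n → C) := LinearMap.pi fun j => LinearMap.toSpanSingleton R C
    (q (Pi.single j 1))
  have hF : Function.Injective F := by
    rw [← LinearMap.ker_eq_bot, LinearMap.ker_eq_bot']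
    intro r hr
    have h1 : r ∈ Module.annihilator R C := by
      rw [Module.mem_annihilator]
      intro c
      obtain ⟨v, rfl⟩ := hq c
      have h2 : v = ∑ j, v j • (Pi.single j 1 : Fin n → R) := by
        ext k
        simp [Finset.sum_apply, Pi.single_apply]
      rw [h2, map_sum, Finset.smul_sum]
      refine Finset.sum_eq_zero fun j _ => ?_
      rw [map_smul, smul_comm]
      have : F r j = 0 := by rw [hr]; rfl
      rw [show r • q (Pi.single j 1) = 0 from this, smul_zero]
    rwa [hC.ann, Ideal.mem_bot] at h1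
  have hm : Mono (ModuleCat.ofHom F) := (ModuleCat.mono_iff_injective _).2 hF
  rw [ModuleCat.isZero_iff_subsingleton]
  refine subsingleton_of_forall_eq 0 fun x => ?_
  let g : ModuleCat.of R R ⟶ I.X i := ModuleCat.ofHom (LinearMap.toSpanSingleton R (I.X i) x)
  have hg := Injective.comp_factorThru g (ModuleCat.ofHom F)
  obtain ⟨G, hG⟩ : ∃ G : (Fin n → C) →ₗ[R] I.X i,
      G = (Injective.factorThru g (ModuleCat.ofHom F)).hom := ⟨_, rfl⟩
  have h3 : G = 0 := by
    refine LinearMap.pi_ext' fun j => ?_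
    rw [h0' (G ∘ₗ LinearMap.single R (fun _ => C) j)]
    rfl
  have h4 := congrArg (fun f : ModuleCat.of R R ⟶ I.X i => f.hom 1) hg
  change (Injective.factorThru g (ModuleCat.ofHom F)).hom (F 1) = (1 : R) • x at h4
  rw [← hG, h3, one_smul] at h4
  exact h4.symm

/-- Regular sequences on `C` in the maximal ideal. -/
def RegSeq [IsLocalRing R] (C : Type u) [AddCommGroup C] [Module R C] (xs : List R) : Prop :=
  (∀ x ∈ xs, x ∈ maximalIdeal R) ∧ IsWeaklyRegular C xs

variable [IsLocalRing R] [IsNoetherianRing R] [Module.Finite R M]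

/-- Claim A. -/
lemma IsQuasiInjRes.nonzero (hC : IsSemidualizing R C) (h : IsQuasiInjRes C M I) {xs : List R}
    (hxs : RegSeq C xs) : ¬ IsZero (I.X (hinfDeg (HomComplex C I) - xs.length)) := by
  have hI := h.injective
  have := hC.finite
  obtain ⟨N', i1, i2, i3, h1, h2, -⟩ := reg_seq I (fun N _ _ _ i => h.noeth hC N i) xs C
    (hinfDeg (HomComplex C I)) hxs.1
    (fun i hi => ModuleCat.isZero_iff_subsingleton.1 (h.hinf_lt hi))
    (by
      have := h.hinf_mem
      rwa [ModuleCat.isZero_iff_subsingleton, not_subsingleton_iff_nontrivial] at this) hxs.2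
  intro h3
  exact not_subsingleton_iff_nontrivial.2 h2 (hh_zero I h3)

lemma IsQuasiInjRes.inf_le (hC : IsSemidualizing R C) (h : IsQuasiInjRes C M I) {xs : List R}
    (hxs : RegSeq C xs) :
    infDeg (HomComplex C I) ≤ hinfDeg (HomComplex C I) - xs.length := by
  have h1 := nonzero_hom hC (h.injective _) (h.nonzero hC hxs)
  have h2 : BddBelow {i : ℤ | ¬ IsZero ((HomComplex C I).X i)} := by
    refine BddBelow.mono (t := {i : ℤ | ¬ IsZero (I.X i)}) (fun i hi h3 => hi ?_)
      h.bounded.bddBelow
    rw [ModuleCat.isZero_iff_subsingleton] at h3 ⊢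
    exact ⟨fun f g => ModuleCat.hom_ext (LinearMap.ext fun x => Subsingleton.elim _ _)⟩
  exact csInf_le h2 h1

/-- Claim B. -/
lemma IsQuasiInjRes.trunc (hC : IsSemidualizing R C) (h : IsQuasiInjRes C M I) {xs : List R}
    (hxs : RegSeq C xs) (hmax : ∀ ys : List R, RegSeq C ys → ys.length ≤ xs.length) (a : ℤ)
    (ha : ∀ i < a, IsZero (I.X i)) (hab : a < hinfDeg (HomComplex C I) - xs.length) :
    IsQuasiInjRes C M (trC I a) ∧
      hinfDeg (HomComplex C (trC I a)) = hinfDeg (HomComplex C I) := by
  have hI := h.injective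
  have := hC.finite
  -- the equivalences on homology
  have hequiv : ∀ i, Nonempty (hh (trC I a) C i ≃ₗ[R] hh I C i) := by
    intro i
    by_cases hi : a < i
    · exact trC_homology_equiv I a C i hi
    · have h1 : Subsingleton (hh (trC I a) C i) := hh_zero _ (trC_isZero I a (by omega))
      have h2 : Subsingleton (hh I C i) := ModuleCat.isZero_iff_subsingleton.1
        (h.hinf_lt (by omega))
      exact ⟨LinearEquiv.ofSubsingleton _ _⟩
  -- vanishing on the residue field
  have hk : Subsingleton (hh I (R ⧸ maximalIdeal R) a) := by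
    obtain ⟨N', i1, i2, i3, h1, h2, h3⟩ := reg_seq I (fun N _ _ _ i => h.noeth hC N i) xs C
      (hinfDeg (HomComplex C I)) hxs.1
      (fun i hi => ModuleCat.isZero_iff_subsingleton.1 (h.hinf_lt hi))
      (by
        have := h.hinf_mem
        rwa [ModuleCat.isZero_iff_subsingleton, not_subsingleton_iff_nontrivial] at this) hxs.2
    have h4 : ¬ Subsingleton ((R ⧸ maximalIdeal R) →ₗ[R] N') := by
      rw [IsSMulRegular.subsingleton_linearMap_iff]
      rintro ⟨y, hy, hyr⟩
      rw [Ideal.annihilator_quotient] at hy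
      obtain ⟨ys, h5, h6, h7⟩ := h3 y hy hyr
      have := hmax ys ⟨h6, h7⟩
      omega
    have h5 : ∃ φ : (R ⧸ maximalIdeal R) →ₗ[R] N', φ ≠ 0 := by
      by_contra hcon
      push Not at hcon
      exact h4 (subsingleton_of_forall_eq 0 hcon)
    obtain ⟨φ, hφ⟩ := h5
    have hφi : Function.Injective φ := by
      rw [← LinearMap.ker_eq_bot]
      have hs : IsSimpleModule R (R ⧸ maximalIdeal R) := by
        rw [isSimpleModule_iff_isCoatom]
        exact (maximalIdeal.isMaximal R).out
      rcases eq_bot_or_eq_top (LinearMap.ker φ) with h6 | h6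
      · exact h6
      · exact absurd (LinearMap.ker_eq_top.1 h6) hφ
    exact sub_sub I φ (LinearMap.range φ).mkQ (LinearMap.exact_map_mkQ_range φ) hφi
      (Submodule.mkQ_surjective _) a (a - 1) (by ring) (h1 a hab)
      (hh_zero I (ha _ (by omega)))
  have hJ := top_vanish I (fun N _ _ _ i => h.noeth hC N i) a ha hk
  have hz : ∀ i, IsZero (hh (trC I a) C i) ↔ IsZero (hh I C i) := by
    intro i
    obtain ⟨e⟩ := hequiv i
    exact ⟨fun h => h.of_iso e.symm.toModuleIso, fun h => h.of_iso e.toModuleIso⟩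
  refine ⟨⟨?_, trC_injective I a ha hJ, ?_, ?_⟩, ?_⟩
  · exact h.bounded.subset fun i hi h2 => hi (trC_isZero' I a h2)
  · intro h2
    exact h.not_acyclic fun i => (hz i).1 (h2 i)
  · intro i
    obtain ⟨e⟩ := hequiv i
    obtain ⟨n, ⟨e'⟩⟩ := h.homology i
    exact ⟨n, ⟨e.toModuleIso ≪≫ e'⟩⟩
  · unfold hinfDeg
    congr 1
    ext i
    exact not_congr (hz i)

/-- Iterating Claim B. -/
lemma IsQuasiInjRes.reduce (hC : IsSemidualizing R C) {xs : List R} (hxs : RegSeq C xs)
    (hmax : ∀ ys : List R, RegSeq C ys → ys.length ≤ xs.length) (n : ℕ) :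
    ∀ I : ChainComplex (ModuleCat.{u} R) ℤ, IsQuasiInjRes C M I →
      (∀ i < hinfDeg (HomComplex C I) - xs.length - n, IsZero (I.X i)) →
      ∃ J : ChainComplex (ModuleCat.{u} R) ℤ, IsQuasiInjRes C M J ∧
        (∀ i < hinfDeg (HomComplex C J) - xs.length, IsZero (J.X i)) := by
  induction n with
  | zero =>
    intro I h h1
    exact ⟨I, h, by simpa using h1⟩
  | succ n ih =>
    intro I h h1
    obtain ⟨h2, h3⟩ := h.trunc hC hxs hmax (hinfDeg (HomComplex C I) - xs.length - (n + 1 : ℕ))
      h1 (by push_cast; omega)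
    refine ih _ h2 fun i hi => ?_
    rw [h3] at hi
    exact trC_isZero I _ (by push_cast; omega)

end proofs

/-- **Bass' formula for the `C`-quasi-injective dimension.** -/
theorem result (R : Type u) [CommRing R] [IsLocalRing R] [IsNoetherianRing R]
    (C : Type u) [AddCommGroup C] [Module R C] (hC : IsSemidualizing R C)
    (M : Type u) [AddCommGroup M] [Module R M] [Module.Finite R M] [Nontrivial M]
    (h : qid R C M ≠ ⊤) : qid R C M = depth R := by
  have hfin := hC.finite
  obtain ⟨I, hI⟩ : ∃ I, IsQuasiInjRes C M I := by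
    by_contra hcon
    push Not at hcon
    apply h
    rw [qid, iInf₂_eq_top]
    exact fun I hI => absurd hI (hcon I)
  -- a longest regular sequence
  obtain ⟨a, ha⟩ := hI.below
  let S : Set ℕ := {n | ∃ xs : List R, RegSeq C xs ∧ xs.length = n}
  have hS1 : S.Nonempty := ⟨0, [], ⟨by simp, IsWeaklyRegular.nil _ _⟩, rfl⟩
  have hS2 : BddAbove S := by
    refine ⟨(hinfDeg (HomComplex C I) - a).toNat, ?_⟩
    rintro n ⟨xs, hxs, rfl⟩
    have h1 := hI.nonzero hC hxs
    have h2 : a ≤ hinfDeg (HomComplex C I) - xs.length := by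
      by_contra hlt
      exact h1 (ha _ (not_le.1 hlt))
    omega
  obtain ⟨xs, hxs, hlen⟩ := Nat.sSup_mem hS1 hS2
  have hmax : ∀ ys : List R, RegSeq C ys → ys.length ≤ xs.length := by
    intro ys hys
    rw [hlen]
    exact le_csSup hS2 ⟨ys, hys, rfl⟩
  -- comparison with `R`
  have hCR : ∀ ys : List R, RegSeq C ys ↔ IsRegular R ys := by
    intro ys
    have h1 : IsWeaklyRegular C ys ↔ IsWeaklyRegular R ys := by
      rw [← weaklyRegular_iff C hC.ann ys C hC.ev]
      exact ((LinearEquiv.ofBijective _ hC.homothety).isWeaklyRegular_congr ys).symm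
    constructor
    · rintro ⟨h2, h3⟩
      exact IsRegular.of_isWeaklyRegular_of_mem_maximalIdeal R h2 (h1.1 h3)
    · intro h2
      refine ⟨fun x hx => ?_, h1.2 h2.1⟩
      rw [IsLocalRing.mem_maximalIdeal, mem_nonunits_iff]
      intro hu
      apply h2.2
      have h3 : Ideal.ofList ys = ⊤ :=
        Ideal.eq_top_of_isUnit_mem _ (Ideal.subset_span hx) hu
      rw [h3]
      simp
  have hdepth : depth R = (xs.length : ℕ∞) := by
    apply le_antisymm
    · refine iSup₂_le fun ys hys => ?_
      exact_mod_cast hmax ys ((hCR ys).2 hys)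
    · exact le_iSup₂_of_le xs ((hCR xs).1 hxs) le_rfl
  rw [hdepth]
  apply le_antisymm
  · obtain ⟨J, hJ, hJ2⟩ := IsQuasiInjRes.reduce hC hxs hmax
      (hinfDeg (HomComplex C I) - xs.length - a).toNat I hI (fun i hi => ha i (by omega))
    refine iInf₂_le_of_le J hJ ?_
    have h1 : hinfDeg (HomComplex C J) - xs.length ≤ infDeg (HomComplex C J) := by
      refine le_csInf ⟨_, nonzero_hom hC (hJ.injective _) (hJ.nonzero hC hxs)⟩ ?_
      intro i hi
      by_contra hlt
      apply hi
      have h3 := hJ2 i (not_le.1 hlt)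
      rw [ModuleCat.isZero_iff_subsingleton] at h3 ⊢
      exact ⟨fun f g => ModuleCat.hom_ext (LinearMap.ext fun x => Subsingleton.elim _ _)⟩
    have h2 : (hinfDeg (HomComplex C J) - infDeg (HomComplex C J)).toNat ≤ xs.length := by omega
    exact_mod_cast h2
  · refine le_iInf₂ fun J hJ => ?_
    have h1 := hJ.inf_le hC hxs
    have h2 : xs.length ≤ (hinfDeg (HomComplex C J) - infDeg (HomComplex C J)).toNat := by omega
    exact_mod_cast h2

end Pool.Agent.Results.MP_a1000c_al.QuasiInjDimEqDepth
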